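import Pool.Agent.helper85.PG.Spec2

set_option autoImplicit false

namespace Pool.Agent.helper85.PG

open Filter Topology

theorem LSM_rr_le {p : ℕ} [Fact p.Prime] (S : Finset (ZMod p)) (ρ : ZMod p) : rr S ρ ≤ p := by
  unfold rr
  refine (Finset.card_filter_le _ _).trans ?_
  refine (Finset.card_le_univ S).trans ?_
  rw [ZMod.card]

theorem LSM_ev (C κ : ℝ) (hκ : 0 < κ) : ∀ᶠ x : ℝ in atTop,
    4 * C * (Real.log x / Real.log 2 + 1) ≤ x ^ κ := by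
  have h1 : (fun x : ℝ => Real.log x) =o[atTop] fun x : ℝ => x ^ κ := isLittleO_log_rpow_atTop hκ
  have h2 : (fun _ : ℝ => (1 : ℝ)) =o[atTop] fun x : ℝ => x ^ κ := by
    rw [Asymptotics.isLittleO_const_left]
    right
    exact tendsto_norm_atTop_atTop.comp (tendsto_rpow_atTop hκ)
  have h3 : (fun x : ℝ => 4 * C * ((Real.log 2)⁻¹ * Real.log x + 1)) =o[atTop]
      fun x : ℝ => x ^ κ := ((h1.const_mul_left _).add h2).const_mul_left _
  have h4 := h3.bound (zero_lt_one)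
  filter_upwards [h4, eventually_ge_atTop (0 : ℝ)] with x hx hx0
  rw [one_mul, Real.norm_of_nonneg (Real.rpow_nonneg hx0 _)] at hx
  refine le_trans ?_ hx
  refine le_trans (le_of_eq ?_) (le_abs_self _)
  rw [div_eq_inv_mul]

theorem LSM_log (n : ℕ) (hn : 0 < n) : (Nat.log 2 n : ℝ) ≤ Real.log n / Real.log 2 := by
  rw [le_div_iff₀ (Real.log_pos one_lt_two)]
  have h : 2 ^ Nat.log 2 n ≤ n := Nat.pow_log_le_self 2 hn.ne'
  have h' : ((2 : ℝ) ^ Nat.log 2 n) ≤ (n : ℝ) := by exact_mod_cast h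
  rw [← Real.log_pow]
  exact Real.log_le_log (by positivity) h'

theorem LSM (hLEV : LEV_stmt) : LSM_stmt := by
  intro d κ hκ
  obtain ⟨K, hK⟩ := exists_nat_gt (8 / κ)
  have hK0 : (0 : ℝ) < K := lt_trans (by positivity) hK
  have hK1 : 0 < K := by exact_mod_cast hK0
  obtain ⟨C, hC1, hC⟩ := hLEV d K hK1
  have h4K : 4 / (K : ℝ) ≤ κ / 2 := by
    rw [div_le_iff₀ hK0]
    rw [div_lt_iff₀ hκ] at hK
    nlinarith
  obtain ⟨x₀, hx₀⟩ := eventually_atTop.1 (LSM_ev C (κ / 2) (half_pos hκ))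
  refine ⟨C, ⌈x₀⌉₊, hC1, ?_⟩
  intro p _ hp P hP l hl
  have hpp : p.Prime := Fact.out
  have hp0 : (0 : ℝ) < p := by exact_mod_cast hpp.pos
  have hp1 : (1 : ℝ) ≤ p := by exact_mod_cast hpp.one_lt.le
  have hx : 4 * C * (Real.log p / Real.log 2 + 1) ≤ (p : ℝ) ^ (κ / 2) := by
    apply hx₀
    exact (Nat.le_ceil x₀).trans (by exact_mod_cast hp)
  set f : ℝ := ((P l).card : ℝ) with hf
  have hmaps : ∀ ρ ∈ Lam C (P l), Nat.log 2 (rr (P l) ρ) ∈ Finset.range (Nat.log 2 p + 1) := by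
    intro ρ _
    rw [Finset.mem_range]
    exact Nat.lt_succ_of_le (Nat.log_mono_right (LSM_rr_le _ _))
  rw [← Finset.sum_fiberwise_of_maps_to hmaps]
  have hcls : ∀ i ∈ Finset.range (Nat.log 2 p + 1),
      ∑ ρ ∈ (Lam C (P l)).filter (fun ρ => Nat.log 2 (rr (P l) ρ) = i), (rr (P l) ρ : ℝ) ^ 2 ≤
        4 * C * (p : ℝ) ^ (κ / 2) * f ^ 2 := by
    intro i _
    have hM : (0 : ℝ) < 2 ^ i := by positivity
    have hb := hC p P hP l hl ((2 : ℝ) ^ i) hM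
    have hsub : (Lam C (P l)).filter (fun ρ => Nat.log 2 (rr (P l) ρ) = i) ⊆
        (Lam C (P l)).filter fun ρ => (2 : ℝ) ^ i ≤ (rr (P l) ρ : ℝ) := by
      intro ρ hρ
      rw [Finset.mem_filter] at hρ ⊢
      refine ⟨hρ.1, ?_⟩
      have h2 : 2 ≤ rr (P l) ρ := ((mem_Lam _ _ _).1 hρ.1).2.1
      have h3 : 2 ^ Nat.log 2 (rr (P l) ρ) ≤ rr (P l) ρ :=
        Nat.pow_log_le_self 2 (by omega)
      rw [hρ.2] at h3
      exact_mod_cast h3
    have hcard : (((Lam C (P l)).filter (fun ρ => Nat.log 2 (rr (P l) ρ) = i)).card : ℝ) ≤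
        C * (p : ℝ) ^ (4 / (K : ℝ)) * (f / 2 ^ i) ^ 2 := by
      refine le_trans ?_ hb
      exact_mod_cast Finset.card_le_card hsub
    have hterm : ∀ ρ ∈ (Lam C (P l)).filter (fun ρ => Nat.log 2 (rr (P l) ρ) = i),
        (rr (P l) ρ : ℝ) ^ 2 ≤ 4 * (2 ^ i) ^ 2 := by
      intro ρ hρ
      rw [Finset.mem_filter] at hρ
      have h3 : rr (P l) ρ < 2 ^ (Nat.log 2 (rr (P l) ρ) + 1) :=
        Nat.lt_pow_succ_log_self one_lt_two _
      rw [hρ.2] at h3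
      have h4 : (rr (P l) ρ : ℝ) ≤ 2 * 2 ^ i := by
        have : (rr (P l) ρ : ℝ) < 2 ^ (i + 1) := by exact_mod_cast h3
        rw [pow_succ] at this
        linarith
      have h5 : (0 : ℝ) ≤ (rr (P l) ρ : ℝ) := Nat.cast_nonneg _
      nlinarith
    have hpk : (p : ℝ) ^ (4 / (K : ℝ)) ≤ (p : ℝ) ^ (κ / 2) :=
      Real.rpow_le_rpow_of_exponent_le hp1 h4K
    calc ∑ ρ ∈ (Lam C (P l)).filter (fun ρ => Nat.log 2 (rr (P l) ρ) = i),
          (rr (P l) ρ : ℝ) ^ 2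
        ≤ (((Lam C (P l)).filter (fun ρ => Nat.log 2 (rr (P l) ρ) = i)).card : ℝ) *
            (4 * (2 ^ i) ^ 2) := by
          rw [← nsmul_eq_mul]
          exact Finset.sum_le_card_nsmul _ _ _ hterm
      _ ≤ (C * (p : ℝ) ^ (4 / (K : ℝ)) * (f / 2 ^ i) ^ 2) * (4 * (2 ^ i) ^ 2) :=
          mul_le_mul_of_nonneg_right hcard (by positivity)
      _ = 4 * C * (p : ℝ) ^ (4 / (K : ℝ)) * f ^ 2 := by
          field_simp
      _ ≤ 4 * C * (p : ℝ) ^ (κ / 2) * f ^ 2 := by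
          have hC0 : 0 < C := by linarith
          gcongr
  have hpκ : (0 : ℝ) ≤ (p : ℝ) ^ (κ / 2) := Real.rpow_nonneg hp0.le _
  calc ∑ i ∈ Finset.range (Nat.log 2 p + 1),
        ∑ ρ ∈ (Lam C (P l)).filter (fun ρ => Nat.log 2 (rr (P l) ρ) = i), (rr (P l) ρ : ℝ) ^ 2
      ≤ ∑ i ∈ Finset.range (Nat.log 2 p + 1), 4 * C * (p : ℝ) ^ (κ / 2) * f ^ 2 :=
        Finset.sum_le_sum hcls
    _ = (4 * C * ((Nat.log 2 p : ℝ) + 1)) * ((p : ℝ) ^ (κ / 2) * f ^ 2) := by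
        rw [Finset.sum_const, Finset.card_range, nsmul_eq_mul]
        push_cast
        ring
    _ ≤ (p : ℝ) ^ (κ / 2) * ((p : ℝ) ^ (κ / 2) * f ^ 2) := by
        apply mul_le_mul_of_nonneg_right _ (by positivity)
        refine le_trans ?_ hx
        have := LSM_log p hpp.pos
        have hC0 : 0 < C := by linarith
        gcongr
    _ = (p : ℝ) ^ κ * f ^ 2 := by
        rw [← mul_assoc, ← Real.rpow_add hp0, add_halves]

end Pool.Agent.helper85.PG
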