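import Pool.Agent.helper33.PG.Spec

namespace Pool.Agent.PG

open Polynomial Finset

lemma LON_gco_nonneg (q a b t : ℕ) : 0 ≤ gco q a b t := by
  unfold gco
  positivity

lemma LON_inner (q a b i N : ℕ) :
    ∑ j ∈ range N, (if i ≤ j ∧ j - i < q - a then
      ((a + b + 1).choose i : ℤ) * gco q a b (j - i) else 0) ≤
    ((a + b + 1).choose i : ℤ) * ∑ t ∈ range (q - a), gco q a b t := by
  classical
  rw [← Finset.sum_filter, ← Finset.mul_sum]
  apply mul_le_mul_of_nonneg_left _ (by positivity)
  have hinj : Set.InjOn (fun j : ℕ => j - i)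
      (↑((range N).filter (fun j => i ≤ j ∧ j - i < q - a)) : Set ℕ) := by
    intro x hx y hy hxy
    have hx' := (Finset.mem_filter.mp (Finset.mem_coe.mp hx)).2
    have hy' := (Finset.mem_filter.mp (Finset.mem_coe.mp hy)).2
    simp only at hxy
    omega
  have h1 : ∑ j ∈ (range N).filter (fun j => i ≤ j ∧ j - i < q - a), gco q a b (j - i) =
      ∑ t ∈ ((range N).filter (fun j => i ≤ j ∧ j - i < q - a)).image (fun j => j - i),
        gco q a b t := by
    rw [Finset.sum_image hinj]
  rw [h1]
  apply Finset.sum_le_sum_of_subset_of_nonneg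
  · intro t ht
    obtain ⟨j, hj, rfl⟩ := Finset.mem_image.mp ht
    exact Finset.mem_range.mpr (Finset.mem_filter.mp hj).2.2
  · intro t _ _
    exact LON_gco_nonneg q a b t

lemma LON_term (q a b i j : ℕ) :
    |(if i ≤ j ∧ j - i < q - a then
      (-1 : ℤ) ^ i * ((a + b + 1).choose i : ℤ) * gco q a b (j - i) else 0)| =
    (if i ≤ j ∧ j - i < q - a then
      ((a + b + 1).choose i : ℤ) * gco q a b (j - i) else 0) := by
  split_ifs with h
  · rw [abs_mul, abs_mul, abs_pow, abs_neg, abs_one, one_pow, one_mul,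
      abs_of_nonneg (LON_gco_nonneg q a b (j - i)), abs_of_nonneg (by positivity)]
  · exact abs_zero

theorem LON (hCOF : COF_stmt) (hVDM : VDM_stmt) : LON_stmt := by
  intro q a b haq
  have hV : ∑ t ∈ range (q - a), gco q a b t = ((q + b).choose (a + b + 1) : ℤ) := by
    have := hVDM q a b haq
    rw [← this]
    push_cast
    rfl
  have h1 : ∀ j ∈ range (q + b + 1), |(S q a b).coeff j| ≤
      ∑ i ∈ range (a + b + 2), (if i ≤ j ∧ j - i < q - a then
        ((a + b + 1).choose i : ℤ) * gco q a b (j - i) else 0) := by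
    intro j _
    rw [hCOF]
    refine (Finset.abs_sum_le_sum_abs _ _).trans (le_of_eq ?_)
    exact Finset.sum_congr rfl (fun i _ => LON_term q a b i j)
  refine (Finset.sum_le_sum h1).trans ?_
  rw [Finset.sum_comm]
  refine (Finset.sum_le_sum (fun i _ => LON_inner q a b i (q + b + 1))).trans ?_
  rw [hV, ← Finset.sum_mul]
  unfold Lc
  apply le_of_eq
  congr 1
  have := Nat.sum_range_choose (a + b + 1)
  have h2 : ((∑ i ∈ range (a + b + 1 + 1), (a + b + 1).choose i : ℕ) : ℤ) = ((2 ^ (a + b + 1) : ℕ) : ℤ) := by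
    rw [this]
  push_cast at h2
  exact h2

end Pool.Agent.PG
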